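import Mathlib
import Pool.Agent.Results.MP_8b1f5a_an.AllLengths

set_option autoImplicit false

namespace Pool.Agent.Results.MP_580194_an.EllOneAllLengths

open Module

/-- Real `ℓ₁ⁿ` has a finite unit norm tight frame of every length `N ≥ n`: there are `N` pairs
`(x i, f i)` of vectors of `ℝⁿ` with `∑ j |x i j| = 1`, `max j |f i j| = 1`,
`∑ j f i j x i j = 1`, and `∑ i f i (y) x i = (N/n) y` for every `y`. -/
theorem result (n N : ℕ) (hn : 1 ≤ n) (hN : n ≤ N) :
    ∃ x f : Fin N → Fin n → ℝ,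
      (∀ i, ∑ j, |x i j| = 1 ∧ ‖f i‖ = 1 ∧ ∑ j, f i j * x i j = 1) ∧
      ∀ y : Fin n → ℝ, ∑ i, (∑ j, f i j * y j) • x i = ((N : ℝ) / n) • y := by
  classical
  have hfin : Nonempty (Fin n) := ⟨⟨0, hn⟩⟩
  let b : Basis (Fin n) ℝ (PiLp 1 (fun _ : Fin n => ℝ)) := PiLp.basisFun 1 ℝ (Fin n)
  have hX : finrank ℝ (PiLp 1 (fun _ : Fin n => ℝ)) = n := by
    rw [Module.finrank_eq_card_basis b, Fintype.card_fin]
  obtain ⟨x', f', hxf, c, hc⟩ :=
    Pool.Agent.Results.MP_8b1f5a_an.AllLengths.result ℝ (PiLp 1 (fun _ : Fin n => ℝ)) N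
      (by rw [hX]; exact hN)
  let f : Fin N → Fin n → ℝ := fun i j => f' i (b j)
  have hbrep : ∀ (z : PiLp 1 (fun _ : Fin n => ℝ)) (j : Fin n), b.repr z j = z j := by
    intro z j
    simp [b]
  have hfz : ∀ (i : Fin N) (z : PiLp 1 (fun _ : Fin n => ℝ)), f' i z = ∑ j, f i j * z j := by
    intro i z
    conv_lhs => rw [← b.sum_repr z]
    rw [map_sum]
    refine Finset.sum_congr rfl fun j _ => ?_
    rw [map_smul, smul_eq_mul, mul_comm, hbrep]
  have hnorm : ∀ z : PiLp 1 (fun _ : Fin n => ℝ), ‖z‖ = ∑ j, |z j| := by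
    intro z
    rw [PiLp.norm_eq_of_L1]; rfl
  have hbj : ∀ j k, b j k = if k = j then 1 else 0 := by
    intro j k
    rw [← hbrep, b.repr_self, Finsupp.single_apply]
    simp only [eq_comm]
  have hb : ∀ j, ‖b j‖ = 1 := by
    intro j
    rw [hnorm]
    simp only [hbj]
    rw [Finset.sum_eq_single j]
    · simp
    · intro k _ hk; simp [hk]
    · intro h; exact absurd (Finset.mem_univ j) h
  have hfi : ∀ i, ‖f i‖ = 1 := by
    intro i
    obtain ⟨h1, h2, h3⟩ := hxf i
    refine le_antisymm ((pi_norm_le_iff_of_nonneg zero_le_one).2 fun j => ?_) ?_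
    · have := (f' i).le_opNorm (b j)
      rwa [h2, hb, one_mul] at this
    · calc (1 : ℝ) = ∑ j, f i j * x' i j := by rw [← hfz, h3]
        _ ≤ ∑ j, ‖f i‖ * |x' i j| := by
          refine Finset.sum_le_sum fun j _ => ?_
          refine (le_abs_self _).trans ?_
          rw [abs_mul]
          exact mul_le_mul_of_nonneg_right (norm_le_pi_norm (f i) j) (abs_nonneg _)
        _ = ‖f i‖ * ‖x' i‖ := by rw [hnorm, Finset.mul_sum]
        _ = ‖f i‖ := by rw [h1, mul_one]
  have hsum : ∀ (y : PiLp 1 (fun _ : Fin n => ℝ)) (k : Fin n),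
      ∑ i, (∑ j, f i j * y j) * x' i k = c * y k := by
    intro y k
    have h := congrArg (fun z : PiLp 1 (fun _ : Fin n => ℝ) => b.repr z k) (hc y)
    simp only [map_sum, map_smul, Finsupp.coe_finsetSum, Finset.sum_apply, Finsupp.smul_apply,
      smul_eq_mul, hbrep, hfz] at h
    exact h
  have hcval : c = (N : ℝ) / n := by
    have hn0 : (n : ℝ) ≠ 0 := by positivity
    rw [eq_div_iff hn0]
    have h1 : ∀ k : Fin n, c = ∑ i, f i k * x' i k := by
      intro k
      have := hsum (b k) k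
      simp only [hbj, mul_ite, mul_one, mul_zero, Finset.sum_ite_eq', Finset.mem_univ,
        if_true] at this
      exact this.symm
    calc c * n = ∑ k : Fin n, c := by
          rw [Finset.sum_const, Finset.card_univ, Fintype.card_fin, nsmul_eq_mul, mul_comm]
      _ = ∑ k : Fin n, ∑ i, f i k * x' i k := Finset.sum_congr rfl fun k _ => h1 k
      _ = ∑ i, ∑ k : Fin n, f i k * x' i k := Finset.sum_comm
      _ = ∑ i : Fin N, (1 : ℝ) := by
          refine Finset.sum_congr rfl fun i _ => ?_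
          rw [← hfz, (hxf i).2.2]
      _ = N := by simp
  refine ⟨fun i j => x' i j, f, fun i => ⟨?_, hfi i, ?_⟩, fun y => ?_⟩
  · rw [← hnorm]; exact (hxf i).1
  · rw [← hfz]; exact (hxf i).2.2
  · funext k
    rw [Finset.sum_apply]
    simp only [Pi.smul_apply, smul_eq_mul]
    have := hsum (WithLp.toLp 1 y) k
    rw [hcval] at this
    exact this

end Pool.Agent.Results.MP_580194_an.EllOneAllLengths
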